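import Pool.Agent.H.MP_51801e_lc.Main

namespace Pool.Agent.Results.MP_165503_lc.Linear

open Pool.Agent.H.MP_51801e_lc

theorem result : (∃ C D : ℝ, 0 < C ∧ 0 < D ∧ ∀ (Q A : Type) [Fintype Q] [Nonempty Q] [Fintype A] [Nonempty A]
      (δ : Q → A → Q) (k : ℕ), D * Fintype.card Q ≤ k → AliceWins δ k →
      ∃ w : List A, IsReset δ w ∧ (w.length : ℝ) ≤ C * Fintype.card Q) ∧
    ∀ (Q A : Type) [Fintype Q] [Nonempty Q] [Fintype A] [Nonempty A] (δ : Q → A → Q) (k : ℕ),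
      Fintype.card Q ≤ k + 2 → AliceWins δ k → ∃ w : List A, IsReset δ w ∧ w.length < Fintype.card Q := by
  refine ⟨⟨1, 1, one_pos, one_pos, fun Q A _ _ _ _ δ k hk h => ?_⟩, fun Q A _ _ _ _ δ k hk h => ?_⟩
  · have h1 : Fintype.card Q ≤ k := by exact_mod_cast (one_mul (Fintype.card Q : ℝ)).symm.trans_le hk
    obtain ⟨w, h2, h3⟩ := main h (by simp; omega)
    refine ⟨w, h2, ?_⟩
    rw [one_mul]
    exact_mod_cast (by simpa using h3.le : w.length ≤ Fintype.card Q)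
  · simpa using main h (by simpa using hk)

end Pool.Agent.Results.MP_165503_lc.Linear
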